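import Mathlib
import Pool.Agent.V11180.DiffRel8

/-!
# MP_d8403e_co: divots in the distribution of the size of the difference set

Both parts of the conjecture fail.

* (a) fails for `k = 13`: for all large `n` the sequence `P_{n,H}` has no divot at
  `13 * 12 + 3 = 159`.
* (b) fails: for every large `s` the sequence `P_{n,H}` has, for all large `n`, a divot at
  `s (s - 1) - 21`, which is not of the form `k (k - 1) + 3`.
-/

set_option autoImplicit false

open Finset
open scoped Pointwise

namespace Pool.Agent.Results.MP_d8403e_co.BothPartsFail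

open Pool.Agent.V11180.DiffRel

/-- `P_{n,H}(m)`: the probability that `|S - S| = m` for a uniformly random `S ⊆ {0, …, n-1}`. -/
noncomputable def P (n m : ℕ) : ℚ :=
  (((Ico (0 : ℤ) n).powerset.filter (fun S => (S - S).card = m)).card : ℚ) / 2 ^ n

/-- A divot of a sequence at `i`: the term is positive and smaller than the nearest nonzero term
on each side (zero terms are skipped, and both neighbours must exist). -/
def HasDivot (Q : ℕ → ℚ) (i : ℕ) : Prop :=
  0 < Q i ∧ ∃ j j' : ℕ, j < i ∧ i < j' ∧ Q j ≠ 0 ∧ Q j' ≠ 0 ∧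
    (∀ l, j < l → l < i → Q l = 0) ∧ (∀ l, i < l → l < j' → Q l = 0) ∧ Q i < Q j ∧ Q i < Q j'

lemma P_odd (n D : ℕ) (hD : 1 ≤ D) : P n (2 * D + 1) = (N n D : ℚ) / 2 ^ n := by
  rw [P, N]
  congr 3
  apply filter_congr
  intro S _
  rcases S.eq_empty_or_nonempty with rfl | hS
  · have h1 : ((∅ : Finset ℤ) - ∅).card = 0 := by simp
    have h2 : (Dp ∅).card = 0 := by
      have := card_Dp_le_choose ∅
      simpa using this
    rw [h1, h2]
    omega
  · rw [card_sub_self hS]
    omega

lemma P_even (n j : ℕ) (hj : 1 ≤ j) : P n (2 * j) = 0 := by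
  have h1 : (Ico (0 : ℤ) n).powerset.filter (fun S => (S - S).card = 2 * j) = ∅ := by
    rw [filter_eq_empty_iff]
    intro S _ h
    rcases S.eq_empty_or_nonempty with rfl | hS
    · have h1 : ((∅ : Finset ℤ) - ∅).card = 0 := by simp
      omega
    · rw [card_sub_self hS] at h
      omega
  rw [P, h1, card_empty, Nat.cast_zero, zero_div]

lemma P_lt {n D D' : ℕ} (hD : 1 ≤ D) (hD' : 1 ≤ D') (h : N n D < N n D') :
    P n (2 * D + 1) < P n (2 * D' + 1) := by
  rw [P_odd n D hD, P_odd n D' hD']
  apply div_lt_div_of_pos_right _ (by positivity)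
  exact_mod_cast h

/-- Part (a) fails at `k = 13`, and part (b) fails at `s (s - 1) - 21` for every large `s`. -/
theorem result :
    (∃ n₀ : ℕ, ∀ n ≥ n₀, ¬ HasDivot (P n) (13 * (13 - 1) + 3)) ∧
    (∃ s₀ : ℕ, ∀ s ≥ s₀, (∀ k : ℕ, k * (k - 1) + 3 ≠ s * (s - 1) - 21) ∧
      ∃ n₀ : ℕ, ∀ n ≥ n₀, HasDivot (P n) (s * (s - 1) - 21)) := by
  constructor
  · obtain ⟨n0, hn0⟩ := a_main
    refine ⟨n0 + 81, ?_⟩
    intro n hn hdiv
    have h1 := hn0 n (by omega)
    have h2 := P_lt (by norm_num) (by norm_num) h1
    norm_num at h2 hdiv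
    obtain ⟨-, j, j', hj, hj', -, hQj', -, hz, -, hlt⟩ := hdiv
    have h3 : P n 161 ≠ 0 := by
      have h4 := P_odd n 80 (by norm_num)
      norm_num at h4
      rw [h4]
      have h5 : 0 < N n 80 := N_pos (by omega)
      have h6 : (0 : ℚ) < N n 80 := by exact_mod_cast h5
      positivity
    have h4 : P n 160 = 0 := P_even n 80 (by norm_num)
    have h5 : j' = 161 := by
      by_contra hne
      rcases Nat.lt_or_ge 161 j' with h6 | h6
      · exact h3 (hz 161 (by norm_num) h6)
      · have h7 : j' = 160 := by omega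
        rw [h7] at hQj'
        exact hQj' h4
    rw [h5] at hlt
    exact absurd hlt (not_lt.2 h2.le)
  · obtain ⟨s0, hs0⟩ := b_main
    refine ⟨s0, ?_⟩
    intro s hs
    obtain ⟨hs20, n0, hn0⟩ := hs0 s hs
    obtain ⟨r, rfl⟩ : ∃ r, s = r + 20 := ⟨s - 20, by omega⟩
    have hc : 2 * (r + 20).choose 2 = (r + 20) * (r + 20 - 1) := by
      rw [Nat.choose_two_right]
      exact Nat.mul_div_cancel' (Nat.even_mul_pred_self _).two_dvd
    have hch : 190 ≤ (r + 20).choose 2 := by
      have h1 := Nat.choose_le_choose 2 hs20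
      have h2 : Nat.choose 20 2 = 190 := by decide
      omega
    constructor
    · intro k hk
      rcases Nat.lt_or_ge k (r + 20) with h1 | h1
      · have h2 : k * (k - 1) ≤ (r + 19) * (r + 18) := Nat.mul_le_mul (by omega) (by omega)
        have h3 : (r + 20) * (r + 20 - 1) = (r + 20) * (r + 19) := by
          rw [show r + 20 - 1 = r + 19 by omega]
        rw [h3] at hk
        have h4 : (r + 20) * (r + 19) = (r + 19) * (r + 18) + 2 * (r + 19) := by ring
        omega
      · have h2 : (r + 20) * (r + 20 - 1) ≤ k * (k - 1) := Nat.mul_le_mul h1 (by omega)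
        omega
    · refine ⟨n0 + (r + 20).choose 2, ?_⟩
      intro n hn
      obtain ⟨h1, h2, h3⟩ := hn0 n (by omega)
      rw [← hc]
      clear hc hn hn0 hs hs0
      generalize (r + 20).choose 2 = C at *
      obtain ⟨D, rfl⟩ : ∃ D, C = D + 11 := ⟨C - 11, by omega⟩
      have e0 : 2 * (D + 11) - 21 = 2 * D + 1 := by omega
      have e1 : D + 11 - 12 = D - 1 := by omega
      have e2 : D + 11 - 10 = D + 1 := by omega
      have e3 : D + 11 - 11 = D := by omega
      rw [e1, e3] at h2
      rw [e2, e3] at h3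
      rw [e3] at h1
      rw [e0]
      have g2 := P_lt (n := n) (by omega) (by omega) h2
      have g3 := P_lt (n := n) (by omega) (by omega) h3
      have g1 : 0 < P n (2 * D + 1) := by
        rw [P_odd n D (by omega)]
        have h6 : (0 : ℚ) < N n D := by exact_mod_cast h1
        positivity
      refine ⟨g1, 2 * (D - 1) + 1, 2 * (D + 1) + 1, by omega, by omega, (g1.trans g2).ne',
        (g1.trans g3).ne', ?_, ?_, g2, g3⟩
      · intro l hl1 hl2
        have : l = 2 * D := by omega
        rw [this]
        exact P_even n D (by omega)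
      · intro l hl1 hl2
        have : l = 2 * (D + 1) := by omega
        rw [this]
        exact P_even n (D + 1) (by omega)

end Pool.Agent.Results.MP_d8403e_co.BothPartsFail
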